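import Mathlib

set_option autoImplicit false

/-!
The definitions and the lemmas of this file are copied from the library module
`Pool.Graph.R_seed8.Results.MP_89d95d_co.NoWellCoveredSeed`.
-/

namespace Pool.Agent.H39.Seed

open Finset

/-- `S` is an independent dominating set, i.e. a maximal independent set. -/
def IsMIS {V : Type*} (G : SimpleGraph V) (S : Finset V) : Prop :=
  (∀ u ∈ S, ∀ v ∈ S, ¬ G.Adj u v) ∧ ∀ v, v ∉ S → ∃ u ∈ S, G.Adj u v

/-- `S` is an independent dominating set of minimum size. -/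
def IsISet {V : Type*} (G : SimpleGraph V) (S : Finset V) : Prop :=
  IsMIS G S ∧ ∀ T, IsMIS G T → S.card ≤ T.card

/-- All maximal independent sets have the same size. -/
def WellCovered {V : Type*} (G : SimpleGraph V) : Prop :=
  ∀ S T, IsMIS G S → IsMIS G T → S.card = T.card

/-- The `i`-graph: `i`-sets, adjacent when one vertex slides along an edge. -/
def iGraph {V : Type*} [DecidableEq V] (G : SimpleGraph V) :
    SimpleGraph {S : Finset V // IsISet G S} where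
  Adj X Y := X ≠ Y ∧ ∃ u ∈ X.1, ∃ v ∈ Y.1, G.Adj u v ∧ Y.1 = insert v (X.1.erase u)
  symm := ⟨by
    rintro X Y ⟨hne, u, hu, v, hv, huv, hY⟩
    refine ⟨hne.symm, v, hv, u, hu, huv.symm, ?_⟩
    have hvX : v ∉ X.1 := fun h => X.2.1.1 u hu v h huv
    rw [hY, erase_insert (fun h => hvX (mem_of_mem_erase h)), insert_erase hu]⟩
  loopless := ⟨fun X h => h.1 rfl⟩

section

variable {W : Type*} [DecidableEq W] {H : SimpleGraph W}

/-- two maximal independent sets which differ in one element are joined by an edge -/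
theorem slide {X Y : Finset W} (hX : IsMIS H X) (hY : IsMIS H Y) {a b : W} (hb : b ∉ X)
    (h : Y = insert b (X.erase a)) : H.Adj a b := by
  obtain ⟨c, hc, hcb⟩ := hX.2 b hb
  by_cases hca : c = a
  · rw [← hca]; exact hcb
  · exact absurd hcb (hY.1 c (by rw [h]; exact mem_insert_of_mem (mem_erase.2 ⟨hca, hc⟩)) b
      (by rw [h]; exact mem_insert_self _ _))

theorem adj_of {X Y : {S : Finset W // IsISet H S}} {a b : W} (ha : a ∈ X.1) (hb : b ∉ X.1)
    (h : Y.1 = insert b (X.1.erase a)) : (iGraph H).Adj X Y := by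
  have hbY : b ∈ Y.1 := by rw [h]; exact mem_insert_self _ _
  refine ⟨?_, a, ha, b, hbY, slide X.2.1 Y.2.1 hb h, h⟩
  rintro rfl
  exact hb hbY

theorem of_adj {X Y : {S : Finset W // IsISet H S}} (h : (iGraph H).Adj X Y) :
    ∃ a ∈ X.1, ∃ b, b ∉ X.1 ∧ H.Adj a b ∧ Y.1 = insert b (X.1.erase a) := by
  obtain ⟨_, u, hu, v, _, huv, hY⟩ := h
  exact ⟨u, hu, v, fun h => X.2.1.1 u hu v h huv, huv, hY⟩

theorem ne_of {X X' X'' : {S : Finset W // IsISet H S}} {a b a' b' : W} (ha : a ∈ X.1)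
    (hb : b ∉ X.1) (h : X'.1 = insert b (X.1.erase a)) (ha' : a' ∈ X.1) (hb' : b' ∉ X.1)
    (h' : X''.1 = insert b' (X.1.erase a')) (hne : X' ≠ X'') (hna : ¬ (iGraph H).Adj X' X'') :
    a ≠ a' ∧ b ≠ b' := by
  have hab : a ≠ b := fun h => hb (h ▸ ha)
  have hab' : a' ≠ b' := fun h => hb' (h ▸ ha')
  have h1 : a' ≠ b := fun h => hb (h ▸ ha')
  have h2 : a ≠ b' := fun h => hb' (h ▸ ha)
  constructor
  · rintro rfl
    have hbb : b ≠ b' := by
      rintro rfl
      exact hne (Subtype.ext (by rw [h, h']))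
    refine hna (adj_of (a := b) (b := b') (by rw [h]; exact mem_insert_self _ _) ?_ ?_)
    · rw [h, mem_insert, mem_erase]
      rintro (h3 | h3)
      · exact hbb h3.symm
      · exact hb' h3.2
    · rw [h', h, erase_insert (fun h => hb (mem_of_mem_erase h))]
  · rintro rfl
    have haa : a ≠ a' := by
      rintro rfl
      exact hne (Subtype.ext (by rw [h, h']))
    refine hna (adj_of (a := a') (b := a) ?_ ?_ ?_)
    · rw [h, mem_insert, mem_erase]
      exact Or.inr ⟨haa.symm, ha'⟩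
    · rw [h, mem_insert, mem_erase]
      rintro (h3 | h3)
      · exact hab h3
      · exact h3.1 rfl
    · rw [h', h]
      ext t
      simp only [mem_insert, mem_erase]
      constructor
      · rintro (rfl | ⟨h3, h4⟩)
        · exact Or.inr ⟨h1.symm, Or.inl rfl⟩
        · by_cases h5 : t = a
          · exact Or.inl h5
          · exact Or.inr ⟨h3, Or.inr ⟨h5, h4⟩⟩
      · rintro (rfl | ⟨h3, rfl | ⟨h4, h5⟩⟩)
        · exact Or.inr ⟨haa, ha⟩
        · exact Or.inl rfl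
        · exact Or.inr ⟨h3, h5⟩

/-- the fourth vertex of a square -/
theorem square {X X' X'' Y : {S : Finset W // IsISet H S}} {a b a' b' : W} (ha : a ∈ X.1)
    (hb : b ∉ X.1) (h : X'.1 = insert b (X.1.erase a)) (hab : H.Adj a b) (ha' : a' ∈ X.1)
    (hb' : b' ∉ X.1) (h' : X''.1 = insert b' (X.1.erase a')) (hab' : H.Adj a' b')
    (haa : a ≠ a') (hbb : b ≠ b') (hY : (iGraph H).Adj X' Y) (hY' : (iGraph H).Adj X'' Y)
    (hne : Y ≠ X) : Y.1 = insert b' ((insert b (X.1.erase a)).erase a') := by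
  obtain ⟨c, hc, d, hd, hcd, hYe⟩ := of_adj hY
  obtain ⟨c', hc', d', hd', hcd', hYe'⟩ := of_adj hY'
  have key1 : ∀ t ∈ X'.1, t ∉ Y.1 → t = c := by
    intro t ht htY
    by_contra hcon
    exact htY (by rw [hYe]; exact mem_insert_of_mem (mem_erase.2 ⟨hcon, ht⟩))
  have key2 : ∀ t ∈ X''.1, t ∉ Y.1 → t = c' := by
    intro t ht htY
    by_contra hcon
    exact htY (by rw [hYe']; exact mem_insert_of_mem (mem_erase.2 ⟨hcon, ht⟩))
  have m1 : a' ∈ X'.1 := by rw [h]; exact mem_insert_of_mem (mem_erase.2 ⟨haa.symm, ha'⟩)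
  have m2 : a ∈ X''.1 := by rw [h']; exact mem_insert_of_mem (mem_erase.2 ⟨haa, ha⟩)
  have m3 : b ∈ X'.1 := by rw [h]; exact mem_insert_self _ _
  have m4 : b' ∈ X''.1 := by rw [h']; exact mem_insert_self _ _
  have hab'' : a' ≠ b := fun h => hb (h ▸ ha')
  have hab''' : a ≠ b' := fun h => hb' (h ▸ ha)
  have hnX : ¬ X.1 ⊆ Y.1 := by
    intro hsub
    apply hne
    refine Subtype.ext (Finset.Subset.antisymm ?_ hsub)
    intro t ht
    by_contra htX
    obtain ⟨u, hu, hut⟩ := X.2.1.2 t htX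
    exact Y.2.1.1 u (hsub hu) t ht hut
  have not_both : ¬ (a ∈ Y.1 ∧ a' ∈ Y.1 ∧ (b ∉ Y.1 ∨ b' ∉ Y.1)) := by
    rintro ⟨h1, h2, h3 | h3⟩
    · have hcb := key1 b m3 h3
      refine hnX fun t ht => ?_
      by_cases hta : t = a
      · rw [hta]; exact h1
      · by_contra htY
        have := key1 t (by rw [h]; exact mem_insert_of_mem (mem_erase.2 ⟨hta, ht⟩)) htY
        exact hb (hcb.trans this.symm ▸ ht)
    · have hcb := key2 b' m4 h3
      refine hnX fun t ht => ?_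
      by_cases hta : t = a'
      · rw [hta]; exact h2
      · by_contra htY
        have := key2 t (by rw [h']; exact mem_insert_of_mem (mem_erase.2 ⟨hta, ht⟩)) htY
        exact hb' (hcb.trans this.symm ▸ ht)
  have hbY : b ∈ Y.1 := by
    by_contra hcon
    have h1 := key1 b m3 hcon
    have h2 : a' ∈ Y.1 := by
      by_contra h3
      exact hab'' ((key1 a' m1 h3).trans h1.symm)
    have h4 : b' ∉ Y.1 := fun h5 => Y.2.1.1 a' h2 b' h5 hab'
    have h5 := key2 b' m4 h4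
    have h6 : a ∈ Y.1 := by
      by_contra h3
      exact hab''' ((key2 a m2 h3).trans h5.symm)
    exact not_both ⟨h6, h2, Or.inl hcon⟩
  have hbY' : b' ∈ Y.1 := by
    by_contra hcon
    have h1 := key2 b' m4 hcon
    have h2 : a ∈ Y.1 := by
      by_contra h3
      exact hab''' ((key2 a m2 h3).trans h1.symm)
    exact Y.2.1.1 a h2 b hbY hab
  have haY' : a' ∉ Y.1 := fun h5 => Y.2.1.1 a' h5 b' hbY' hab'
  have hc1 := key1 a' m1 haY'
  have hd1 : b' = d := by
    rw [hYe, mem_insert, mem_erase] at hbY'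
    rcases hbY' with h5 | h5
    · exact h5
    · exfalso
      rw [h, mem_insert, mem_erase] at h5
      rcases h5.2 with h6 | h6
      · exact hbb h6.symm
      · exact hb' h6.2
  rw [hYe, ← hc1, ← hd1, h]

/-- independent sets extend to maximal ones -/
theorem extend [Fintype W] (S : Finset W) (hS : ∀ u ∈ S, ∀ v ∈ S, ¬ H.Adj u v) :
    ∃ T, S ⊆ T ∧ IsMIS H T := by
  classical
  set F : Finset (Finset W) := univ.filter (fun T => S ⊆ T ∧ ∀ u ∈ T, ∀ v ∈ T, ¬ H.Adj u v) with hF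
  have hne : F.Nonempty := ⟨S, by rw [hF, mem_filter]; exact ⟨mem_univ _, Subset.rfl, hS⟩⟩
  obtain ⟨T, hT, hmax⟩ := F.exists_max_image card hne
  rw [hF, mem_filter] at hT
  refine ⟨T, hT.2.1, hT.2.2, ?_⟩
  intro v hv
  by_contra hcon
  push Not at hcon
  have h1 : insert v T ∈ F := by
    rw [hF, mem_filter]
    refine ⟨mem_univ _, hT.2.1.trans (subset_insert _ _), ?_⟩
    intro a ha b hb
    rw [mem_insert] at ha hb
    rcases ha with rfl | ha <;> rcases hb with rfl | hb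
    · exact H.irrefl
    · exact fun h => hcon b hb h.symm
    · exact hcon a ha
    · exact hT.2.2 a ha b hb
  have h2 := hmax _ h1
  rw [card_insert_of_notMem hv] at h2
  omega

/-- the completion of a cube minus a vertex in the `i`-graph of a well-covered graph -/
theorem completion [Fintype W] (hwc : WellCovered H)
    {X X0 X1 X2 Y01 Y02 Y12 : {S : Finset W // IsISet H S}}
    (h0 : (iGraph H).Adj X X0) (h1 : (iGraph H).Adj X X1) (h2 : (iGraph H).Adj X X2)
    (n01 : X0 ≠ X1 ∧ ¬ (iGraph H).Adj X0 X1) (n02 : X0 ≠ X2 ∧ ¬ (iGraph H).Adj X0 X2)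
    (n12 : X1 ≠ X2 ∧ ¬ (iGraph H).Adj X1 X2)
    (s01 : (iGraph H).Adj X0 Y01 ∧ (iGraph H).Adj X1 Y01 ∧ Y01 ≠ X)
    (s02 : (iGraph H).Adj X0 Y02 ∧ (iGraph H).Adj X2 Y02 ∧ Y02 ≠ X)
    (s12 : (iGraph H).Adj X1 Y12 ∧ (iGraph H).Adj X2 Y12 ∧ Y12 ≠ X) :
    ∃ Y, (iGraph H).Adj Y01 Y ∧ (iGraph H).Adj Y02 Y ∧ (iGraph H).Adj Y12 Y := by
  obtain ⟨a0, ha0, b0, hb0, hab0, e0⟩ := of_adj h0
  obtain ⟨a1, ha1, b1, hb1, hab1, e1⟩ := of_adj h1
  obtain ⟨a2, ha2, b2, hb2, hab2, e2⟩ := of_adj h2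
  obtain ⟨na01, nb01⟩ := ne_of ha0 hb0 e0 ha1 hb1 e1 n01.1 n01.2
  obtain ⟨na02, nb02⟩ := ne_of ha0 hb0 e0 ha2 hb2 e2 n02.1 n02.2
  obtain ⟨na12, nb12⟩ := ne_of ha1 hb1 e1 ha2 hb2 e2 n12.1 n12.2
  have f01 := square ha0 hb0 e0 hab0 ha1 hb1 e1 hab1 na01 nb01 s01.1 s01.2.1 s01.2.2
  have f02 := square ha0 hb0 e0 hab0 ha2 hb2 e2 hab2 na02 nb02 s02.1 s02.2.1 s02.2.2
  have f12 := square ha1 hb1 e1 hab1 ha2 hb2 e2 hab2 na12 nb12 s12.1 s12.2.1 s12.2.2
  have d00 : a0 ≠ b0 := fun h => hb0 (h ▸ ha0)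
  have d01 : a0 ≠ b1 := fun h => hb1 (h ▸ ha0)
  have d02 : a0 ≠ b2 := fun h => hb2 (h ▸ ha0)
  have d10 : a1 ≠ b0 := fun h => hb0 (h ▸ ha1)
  have d11 : a1 ≠ b1 := fun h => hb1 (h ▸ ha1)
  have d12 : a1 ≠ b2 := fun h => hb2 (h ▸ ha1)
  have d20 : a2 ≠ b0 := fun h => hb0 (h ▸ ha2)
  have d21 : a2 ≠ b1 := fun h => hb1 (h ▸ ha2)
  have d22 : a2 ≠ b2 := fun h => hb2 (h ▸ ha2)
  set S : Finset W := insert b2 (Y01.1.erase a2) with hS
  have hmemS : ∀ t, t ∈ S ↔ t = b0 ∨ t = b1 ∨ t = b2 ∨ (t ∈ X.1 ∧ t ≠ a0 ∧ t ≠ a1 ∧ t ≠ a2) := by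
    intro t
    rw [hS, f01]
    simp only [mem_insert, mem_erase]
    constructor
    · tauto
    · rintro (rfl | rfl | rfl | h)
      · exact Or.inr ⟨d20.symm, Or.inr ⟨d10.symm, Or.inl rfl⟩⟩
      · exact Or.inr ⟨d21.symm, Or.inl rfl⟩
      · exact Or.inl rfl
      · tauto
  have hbX : ∀ t ∈ X.1, t ≠ a2 → ¬ H.Adj b2 t := by
    intro t ht hta
    exact X2.2.1.1 b2 (by rw [e2]; exact mem_insert_self _ _) t
      (by rw [e2]; exact mem_insert_of_mem (mem_erase.2 ⟨hta, ht⟩))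
  have hb20 : ¬ H.Adj b2 b0 := Y02.2.1.1 b2 (by rw [f02]; exact mem_insert_self _ _) b0
    (by rw [f02]; exact mem_insert_of_mem (mem_erase.2 ⟨d20.symm, mem_insert_self _ _⟩))
  have hb21 : ¬ H.Adj b2 b1 := Y12.2.1.1 b2 (by rw [f12]; exact mem_insert_self _ _) b1
    (by rw [f12]; exact mem_insert_of_mem (mem_erase.2 ⟨d21.symm, mem_insert_self _ _⟩))
  have hb2S : ∀ t ∈ S, ¬ H.Adj b2 t := by
    intro t ht
    rcases (hmemS t).1 ht with rfl | rfl | rfl | h
    · exact hb20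
    · exact hb21
    · exact H.irrefl
    · exact hbX t h.1 h.2.2.2
  have hind : ∀ u ∈ S, ∀ v ∈ S, ¬ H.Adj u v := by
    intro u hu v hv
    by_cases hub : u = b2
    · rw [hub]; exact hb2S v hv
    · by_cases hvb : v = b2
      · rw [hvb]; exact fun h => hb2S u hu h.symm
      · rw [hS, mem_insert] at hu hv
        exact Y01.2.1.1 u (mem_of_mem_erase (hu.resolve_left hub)) v
          (mem_of_mem_erase (hv.resolve_left hvb))
  have ha2Y : a2 ∈ Y01.1 := by
    rw [f01]; simp only [mem_insert, mem_erase]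
    exact Or.inr ⟨na12.symm, Or.inr ⟨na02.symm, ha2⟩⟩
  have hb2Y : b2 ∉ Y01.1 := by
    rw [f01]; simp only [mem_insert, mem_erase]
    rintro (h | ⟨_, h | h⟩)
    · exact nb12 h.symm
    · exact nb02 h.symm
    · exact hb2 h.2
  have hcard : S.card = Y01.1.card := by
    rw [hS, card_insert_of_notMem (fun h => hb2Y (mem_of_mem_erase h)), card_erase_of_mem ha2Y]
    have := card_pos.2 ⟨a2, ha2Y⟩
    omega
  obtain ⟨T, hST, hT⟩ := extend S hind
  have hTS : S = T := Finset.eq_of_subset_of_card_le hST (by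
    rw [hcard, hwc T Y01.1 hT Y01.2.1])
  have hSI : IsISet H S := by
    rw [hTS]
    exact ⟨hT, fun U hU => (hwc T U hT hU).le⟩
  refine ⟨⟨S, hSI⟩, adj_of ha2Y hb2Y rfl, adj_of (a := a1) (b := b1) ?_ ?_ ?_,
    adj_of (a := a0) (b := b0) ?_ ?_ ?_⟩
  · rw [f02]; simp only [mem_insert, mem_erase]
    exact Or.inr ⟨na12, Or.inr ⟨na01.symm, ha1⟩⟩
  · rw [f02]; simp only [mem_insert, mem_erase]
    rintro (h | ⟨_, h | h⟩)
    · exact nb12 h
    · exact nb01 h.symm
    · exact hb1 h.2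
  · ext t
    rw [hmemS, f02]
    simp only [mem_insert, mem_erase]
    constructor
    · rintro (rfl | rfl | rfl | h)
      · exact Or.inr ⟨d10.symm, Or.inr ⟨d20.symm, Or.inl rfl⟩⟩
      · exact Or.inl rfl
      · exact Or.inr ⟨d12.symm, Or.inl rfl⟩
      · tauto
    · tauto
  · rw [f12]; simp only [mem_insert, mem_erase]
    exact Or.inr ⟨na02, Or.inr ⟨na01, ha0⟩⟩
  · rw [f12]; simp only [mem_insert, mem_erase]
    rintro (h | ⟨_, h | h⟩)
    · exact nb02 h
    · exact nb01 h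
    · exact hb0 h.2
  · ext t
    rw [hmemS, f12]
    simp only [mem_insert, mem_erase]
    constructor
    · rintro (rfl | rfl | rfl | h)
      · exact Or.inl rfl
      · exact Or.inr ⟨d01.symm, Or.inr ⟨d21.symm, Or.inl rfl⟩⟩
      · exact Or.inr ⟨d02.symm, Or.inl rfl⟩
      · tauto
    · tauto

end


end Pool.Agent.H39.Seed
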