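import Pool.Agent.H39.Seed.Med

set_option autoImplicit false

namespace Pool.Agent.H39.Seed

open Finset

variable {ι : Type} [Fintype ι] [DecidableEq ι]

/-- Add or remove the element `i`. -/
def tg (A : Finset ι) (i : ι) : Finset ι := symmDiff A {i}

theorem mem_tg {A : Finset ι} {i t : ι} : t ∈ tg A i ↔ ((t ∈ A ∧ t ≠ i) ∨ (t = i ∧ t ∉ A)) := by
  unfold tg
  rw [mem_symmDiff, mem_singleton]

theorem mem_maj {A B C : Finset ι} {t : ι} :
    t ∈ maj A B C ↔ ((t ∈ A ∧ t ∈ B) ∨ (t ∈ B ∧ t ∈ C)) ∨ (t ∈ C ∧ t ∈ A) := by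
  unfold maj
  simp only [mem_union, mem_inter]

/-- The family is an isometric subgraph of the cube: from every member one can make a step towards
every other member. -/
def Isometric (K : Set (Finset ι)) : Prop :=
  ∀ A ∈ K, ∀ B ∈ K, A ≠ B → ∃ i ∈ symmDiff A B, tg A i ∈ K

/-- The members without `i` which remain members when `i` is added. -/
def red (K : Set (Finset ι)) (i : ι) : Set (Finset ι) := {A | i ∉ A ∧ A ∈ K ∧ insert i A ∈ K}

/-- The completion of a cube minus a vertex. -/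
def CC (K : Set (Finset ι)) : Prop := ∀ A ∈ K, ∀ i j k, i ≠ j → i ≠ k → j ≠ k →
  tg A i ∈ K → tg A j ∈ K → tg A k ∈ K → tg (tg A i) j ∈ K → tg (tg A i) k ∈ K →
  tg (tg A j) k ∈ K → tg (tg (tg A i) j) k ∈ K

/-- members of the family on the same side as `Z` of an edge in the direction `j` -/
def side (K : Set (Finset ι)) (j : ι) (Z : Finset ι) : Set (Finset ι) :=
  {A | A ∈ K ∧ tg A j ∈ K ∧ (j ∈ A ↔ j ∈ Z)}

theorem tg_tg (A : Finset ι) (i : ι) : tg (tg A i) i = A := by
  unfold tg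
  rw [symmDiff_assoc, symmDiff_self]
  exact symmDiff_bot A

theorem tg_comm (A : Finset ι) (i j : ι) : tg (tg A i) j = tg (tg A j) i := by
  unfold tg
  rw [symmDiff_assoc, symmDiff_assoc, symmDiff_comm ({i} : Finset ι) {j}]

theorem mem_tg_ne {A : Finset ι} {i t : ι} (h : t ≠ i) : t ∈ tg A i ↔ t ∈ A := by
  rw [mem_tg]
  constructor
  · rintro (h1 | h1)
    · exact h1.1
    · exact absurd h1.1 h
  · exact fun h1 => Or.inl ⟨h1, h⟩

theorem mem_tg_self {A : Finset ι} {i : ι} : i ∈ tg A i ↔ i ∉ A := by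
  rw [mem_tg]
  constructor
  · rintro (h1 | h1)
    · exact absurd rfl h1.2
    · exact h1.2
  · exact fun h1 => Or.inr ⟨rfl, h1⟩

theorem sd_l {Z U : Finset ι} {i t : ι} (h : t ≠ i) :
    t ∈ symmDiff (tg Z i) U ↔ t ∈ symmDiff Z U := by
  rw [mem_symmDiff, mem_symmDiff, mem_tg_ne h]

theorem sd_r {Z U : Finset ι} {i t : ι} (h : t ≠ i) :
    t ∈ symmDiff Z (tg U i) ↔ t ∈ symmDiff Z U := by
  rw [mem_symmDiff, mem_symmDiff, mem_tg_ne h]

theorem sd_l' {Z U : Finset ι} {i : ι} : i ∈ symmDiff (tg Z i) U ↔ i ∉ symmDiff Z U := by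
  rw [mem_symmDiff, mem_symmDiff, mem_tg_self]
  tauto

theorem sd_r' {Z U : Finset ι} {i : ι} : i ∈ symmDiff Z (tg U i) ↔ i ∉ symmDiff Z U := by
  rw [mem_symmDiff, mem_symmDiff, mem_tg_self]
  tauto

theorem sd_erase_l {Z U : Finset ι} {e : ι} (h : e ∈ symmDiff Z U) :
    symmDiff (tg Z e) U = (symmDiff Z U).erase e := by
  ext t
  rw [mem_erase]
  by_cases h1 : t = e
  · rw [h1, sd_l']
    exact ⟨fun h2 => absurd h h2, fun h2 => absurd rfl h2.1⟩
  · rw [sd_l h1]
    exact ⟨fun h2 => ⟨h1, h2⟩, fun h2 => h2.2⟩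

theorem sd_erase_r {Z U : Finset ι} {e : ι} (h : e ∈ symmDiff Z U) :
    symmDiff Z (tg U e) = (symmDiff Z U).erase e := by
  rw [symmDiff_comm, sd_erase_l (by rw [symmDiff_comm]; exact h), symmDiff_comm]

theorem same_of {Z B : Finset ι} {j : ι} (h : j ∉ symmDiff Z B) : j ∈ B ↔ j ∈ Z := by
  rw [mem_symmDiff] at h
  tauto

theorem insert_tg_of_mem {A : Finset ι} {j : ι} (hj : j ∈ A) : insert j (tg A j) = A := by
  ext t
  rw [mem_insert]
  by_cases h : t = j
  · rw [h]
    exact ⟨fun _ => hj, fun _ => Or.inl rfl⟩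
  · rw [mem_tg_ne h]
    exact ⟨fun h1 => h1.resolve_left h, fun h1 => Or.inr h1⟩

theorem insert_eq_tg {A : Finset ι} {j : ι} (hj : j ∉ A) : insert j A = tg A j := by
  ext t
  rw [mem_insert]
  by_cases h : t = j
  · rw [h, mem_tg_self]
    exact ⟨fun _ => hj, fun _ => Or.inl rfl⟩
  · rw [mem_tg_ne h]
    exact ⟨fun h1 => h1.resolve_left h, fun h1 => Or.inr h1⟩

theorem side_iso {K : Set (Finset ι)} {j : ι} (h : Isometric (red K j)) (Z : Finset ι) :
    Isometric (side K j Z) := by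
  rintro A ⟨hA1, hA2, hA3⟩ B ⟨hB1, hB2, hB3⟩ hAB
  by_cases hj : j ∈ Z
  · have hjA := hA3.mpr hj
    have hjB := hB3.mpr hj
    have mA : tg A j ∈ red K j := ⟨fun h => mem_tg_self.mp h hjA, hA2, by
      rw [insert_tg_of_mem hjA]; exact hA1⟩
    have mB : tg B j ∈ red K j := ⟨fun h => mem_tg_self.mp h hjB, hB2, by
      rw [insert_tg_of_mem hjB]; exact hB1⟩
    have hne : tg A j ≠ tg B j := by
      intro h1
      apply hAB
      rw [← tg_tg A j, h1, tg_tg]
    obtain ⟨i, hi, hi1, hi2, hi3⟩ := h _ mA _ mB hne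
    have hij : i ≠ j := by
      rintro rfl
      rw [sd_l', sd_r'] at hi
      apply hi
      rw [mem_symmDiff]
      rintro (h1 | h1)
      · exact h1.2 hjB
      · exact h1.2 hjA
    refine ⟨i, ?_, ?_, ?_, ?_⟩
    · rwa [sd_l hij, sd_r hij] at hi
    · have h1 : j ∈ tg A i := (mem_tg_ne hij.symm).mpr hjA
      rw [tg_comm] at hi3
      rwa [insert_tg_of_mem h1] at hi3
    · rwa [tg_comm] at hi2
    · rw [mem_tg_ne hij.symm]
      exact hA3
  · have hjA : j ∉ A := fun h => hj (hA3.mp h)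
    have hjB : j ∉ B := fun h => hj (hB3.mp h)
    have mA : A ∈ red K j := ⟨hjA, hA1, by rw [insert_eq_tg hjA]; exact hA2⟩
    have mB : B ∈ red K j := ⟨hjB, hB1, by rw [insert_eq_tg hjB]; exact hB2⟩
    obtain ⟨i, hi, hi1, hi2, hi3⟩ := h _ mA _ mB hAB
    have hij : i ≠ j := by
      rintro rfl
      rw [mem_symmDiff] at hi
      rcases hi with h1 | h1
      · exact hjA h1.1
      · exact hjB h1.1
    refine ⟨i, hi, hi2, ?_, ?_⟩
    · rwa [insert_eq_tg hi1] at hi3
    · rw [mem_tg_ne hij.symm]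
      exact hA3

/-- a geodesic contains a step in every direction in which its ends differ -/
theorem step_in {K : Set (Finset ι)} (hK : Isometric K) (n : ℕ) :
    ∀ P ∈ K, ∀ U ∈ K, (symmDiff P U).card = n → ∀ j ∈ symmDiff P U,
      ∃ B ∈ K, tg B j ∈ K ∧ (∀ t ∈ symmDiff P B, t ∈ symmDiff P U ∧ t ≠ j) := by
  induction n with
  | zero =>
    intro P _ U _ hc j hj
    rw [card_eq_zero] at hc
    rw [hc] at hj
    exact absurd hj (notMem_empty j)
  | succ n ih =>
    intro P hP U hU hc j hj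
    have hne : P ≠ U := by
      rintro rfl
      rw [symmDiff_self] at hj
      exact absurd hj (notMem_empty j)
    obtain ⟨e, he, heK⟩ := hK P hP U hU hne
    by_cases hej : e = j
    · rw [hej] at heK
      refine ⟨P, hP, heK, ?_⟩
      intro t ht
      rw [symmDiff_self] at ht
      exact absurd ht (notMem_empty t)
    · have h1 := sd_erase_l he
      obtain ⟨B, hB, hBj, hB2⟩ := ih (tg P e) heK U hU
        (by rw [h1, card_erase_of_mem he]; omega) j
        (by rw [h1, mem_erase]; exact ⟨fun h => hej h.symm, hj⟩)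
      refine ⟨B, hB, hBj, ?_⟩
      intro t ht
      by_cases hte : t = e
      · rw [hte]
        exact ⟨he, hej⟩
      · have h2 : t ∈ symmDiff (tg P e) B := (sd_l hte).mpr ht
        have h3 := hB2 t h2
        rw [h1, mem_erase] at h3
        exact ⟨h3.1.2, h3.2⟩

/-- the quadrangle condition -/
theorem quad {K : Set (Finset ι)} (hK : Isometric K) (hR : ∀ i, Isometric (red K i)) (hC : CC K)
    (n : ℕ) : ∀ Z ∈ K, ∀ U ∈ K, (symmDiff Z U).card ≤ n → ∀ i j, i ≠ j →
      i ∈ symmDiff Z U → j ∈ symmDiff Z U → tg Z i ∈ K → tg Z j ∈ K → tg (tg Z i) j ∈ K := by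
  induction n with
  | zero =>
    intro Z _ U _ hc i j _ hi
    have h1 : symmDiff Z U = ∅ := by
      rw [← card_eq_zero]
      omega
    rw [h1] at hi
    exact absurd hi (notMem_empty i)
  | succ n ih =>
    intro Z hZ U hU hc i j hij hi hj hZi hZj
    -- a step in the direction `j` on a geodesic from `tg Z i` to `U`
    have hjP : j ∈ symmDiff (tg Z i) U := (sd_l hij.symm).mpr hj
    obtain ⟨B, hB, hBj, hB2⟩ := step_in hK _ (tg Z i) hZi U hU rfl j hjP
    have hBsub : ∀ t ∈ symmDiff Z B, t ∈ symmDiff Z U ∧ t ≠ j := by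
      intro t ht
      by_cases hti : t = i
      · rw [hti]; exact ⟨hi, hij⟩
      · have h1 : t ∈ symmDiff (tg Z i) B := (sd_l hti).mpr ht
        have h2 := hB2 t h1
        exact ⟨(sd_l hti).mp h2.1, h2.2⟩
    have hiB : i ∈ symmDiff Z B := by
      by_contra hcon
      have h1 : i ∈ symmDiff (tg Z i) B := sd_l'.mpr hcon
      exact sd_l'.mp (hB2 i h1).1 hi
    have hjB : j ∉ symmDiff Z B := fun h => (hBsub j h).2 rfl
    -- the family of the edges in the direction `j`
    have hZs : Z ∈ side K j Z := ⟨hZ, hZj, Iff.rfl⟩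
    have hBs : B ∈ side K j Z := ⟨hB, hBj, same_of hjB⟩
    obtain ⟨C0, hC0, hC0i, hC02⟩ := step_in (side_iso (hR j) Z) _ Z hZs B hBs rfl i hiB
    -- the closest square
    let F : Finset (Finset ι) := by
      classical
      exact univ.filter (fun C => C ∈ K ∧ tg C i ∈ K ∧ tg C j ∈ K ∧ tg (tg C i) j ∈ K ∧
        ∀ t ∈ symmDiff Z C, t ∈ symmDiff Z U ∧ t ≠ i ∧ t ≠ j)
    have hF : ∀ C, C ∈ F ↔ (C ∈ K ∧ tg C i ∈ K ∧ tg C j ∈ K ∧ tg (tg C i) j ∈ K ∧
        ∀ t ∈ symmDiff Z C, t ∈ symmDiff Z U ∧ t ≠ i ∧ t ≠ j) := by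
      intro C
      simp only [F, mem_filter, mem_univ, true_and]
    have hFne : F.Nonempty := by
      refine ⟨C0, (hF C0).mpr ⟨hC0.1, hC0i.1, hC0.2.1, hC0i.2.1, ?_⟩⟩
      intro t ht
      have h1 := hC02 t ht
      have h2 := hBsub t h1.1
      exact ⟨h2.1, h1.2, h2.2⟩
    obtain ⟨C, hCF, hmin⟩ := F.exists_min_image (fun C => (symmDiff Z C).card) hFne
    obtain ⟨c1, c2, c3, c4, c5⟩ := (hF C).mp hCF
    by_cases hCZ : C = Z
    · rw [← hCZ]; exact c4
    exfalso
    have hiC : i ∉ symmDiff Z C := fun h => (c5 i h).2.1 rfl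
    have hjC : j ∉ symmDiff Z C := fun h => (c5 j h).2.2 rfl
    -- a step towards `Z` in the family of the edges in the direction `i`
    have hCs : C ∈ side K i Z := ⟨c1, c2, same_of hiC⟩
    have hZs' : Z ∈ side K i Z := ⟨hZ, hZi, Iff.rfl⟩
    obtain ⟨e, he, he1, he2, he3⟩ := side_iso (hR i) Z C hCs Z hZs' hCZ
    have heC : e ∈ symmDiff Z C := by rw [symmDiff_comm]; exact he
    obtain ⟨heU, hei, hej⟩ := c5 e heC
    -- the number of the directions
    have hlt : (symmDiff C (tg Z j)).card ≤ n := by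
      have hsub : symmDiff C (tg Z j) ⊆ (symmDiff Z U).erase i := by
        intro t ht
        rw [mem_erase]
        by_cases htj : t = j
        · rw [htj]; exact ⟨fun h => hij h.symm, hj⟩
        · have h1 : t ∈ symmDiff Z C := by
            rw [sd_r htj, symmDiff_comm] at ht
            exact ht
          have h2 := c5 t h1
          exact ⟨h2.2.1, h2.1⟩
      have h1 := card_le_card hsub
      rw [card_erase_of_mem hi] at h1
      omega
    have hsq : tg (tg C e) j ∈ K := by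
      apply ih C c1 (tg Z j) hZj hlt e j hej _ _ he1 c3
      · rw [sd_r hej]
        exact he
      · rw [sd_r', symmDiff_comm]
        exact hjC
    have hcube : tg (tg (tg C e) i) j ∈ K :=
      hC C c1 e i j hei hej hij he1 c2 c3 he2 hsq c4
    have hnew : tg C e ∈ F := by
      refine (hF _).mpr ⟨he1, he2, hsq, hcube, ?_⟩
      intro t ht
      by_cases hte : t = e
      · rw [hte]; exact ⟨heU, hei, hej⟩
      · exact c5 t ((sd_r hte).mp ht)
    have h1 := hmin _ hnew
    have h2 := sd_erase_r heC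
    rw [h2, card_erase_of_mem heC] at h1
    have h3 : 0 < (symmDiff Z C).card := card_pos.mpr ⟨e, heC⟩
    omega

theorem maj_eq1 {u v w : Finset ι} {e : ι} (he : e ∈ symmDiff u v) (hew : e ∈ w ↔ e ∈ v) :
    maj u v w = maj (tg u e) v w := by
  ext t
  rw [mem_maj, mem_maj]
  by_cases h : t = e
  · rw [h, mem_tg_self]
    rw [mem_symmDiff] at he
    tauto
  · rw [mem_tg_ne h]

theorem maj_eq2 {u v w : Finset ι} {e : ι} (he : e ∈ symmDiff u v) (hew : ¬ (e ∈ w ↔ e ∈ v)) :
    maj u v w = tg (maj (tg u e) v w) e := by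
  ext t
  by_cases h : t = e
  · rw [h, mem_tg_self, mem_maj, mem_maj, mem_tg_self]
    rw [mem_symmDiff] at he
    tauto
  · rw [mem_tg_ne h, mem_maj, mem_maj, mem_tg_ne h]

theorem maj_e {u v w : Finset ι} {e : ι} (he : e ∈ symmDiff u v) (hew : ¬ (e ∈ w ↔ e ∈ v)) :
    e ∈ symmDiff (tg u e) w := by
  rw [sd_l']
  rw [mem_symmDiff] at he ⊢
  tauto

theorem maj_t {u v w : Finset ι} {e : ι} (he : e ∈ symmDiff u v) (hew : ¬ (e ∈ w ↔ e ∈ v)) :
    ∀ t ∈ symmDiff (tg u e) (maj (tg u e) v w), t ∈ symmDiff (tg u e) w ∧ t ≠ e := by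
  intro t ht
  by_cases h : t = e
  · exfalso
    rw [h, mem_symmDiff, mem_maj, mem_tg_self] at ht
    rw [mem_symmDiff] at he
    tauto
  · refine ⟨?_, h⟩
    rw [mem_symmDiff, mem_maj] at ht
    rw [mem_symmDiff]
    tauto

/-- transport of an edge along a geodesic -/
theorem transport {K : Set (Finset ι)} (hK : Isometric K)
    (hQ : ∀ Z ∈ K, ∀ U ∈ K, ∀ i j, i ≠ j → i ∈ symmDiff Z U → j ∈ symmDiff Z U →
      tg Z i ∈ K → tg Z j ∈ K → tg (tg Z i) j ∈ K) {w m : Finset ι} (hw : w ∈ K) (hm : m ∈ K)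
    (e : ι) (n : ℕ) : ∀ p ∈ K, (symmDiff p m).card = n → tg p e ∈ K → e ∈ symmDiff p w →
      (∀ t ∈ symmDiff p m, t ∈ symmDiff p w ∧ t ≠ e) → tg m e ∈ K := by
  induction n with
  | zero =>
    intro p hp hc hpe _ _
    rw [card_eq_zero] at hc
    have : p = m := symmDiff_eq_bot.mp hc
    rw [← this]
    exact hpe
  | succ n ih =>
    intro p hp hc hpe hew hsub
    have hne : p ≠ m := by
      rintro rfl
      rw [symmDiff_self] at hc
      simp at hc
    obtain ⟨g, hg, hgK⟩ := hK p hp m hm hne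
    obtain ⟨hgw, hge⟩ := hsub g hg
    have h1 := sd_erase_l hg
    apply ih (tg p g) hgK
    · rw [h1, card_erase_of_mem hg]
      omega
    · exact hQ p hp w hw g e hge hgw hew hgK hpe
    · exact (sd_l hge.symm).mpr hew
    · intro t ht
      rw [h1, mem_erase] at ht
      have h2 := hsub t ht.2
      exact ⟨(sd_l ht.1).mpr h2.1, h2.2⟩

theorem median_of {K : Set (Finset ι)} (hK : Isometric K) (hR : ∀ i, Isometric (red K i))
    (hC : CC K) : MedianClosed K := by
  have hQ : ∀ Z ∈ K, ∀ U ∈ K, ∀ i j, i ≠ j → i ∈ symmDiff Z U → j ∈ symmDiff Z U →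
      tg Z i ∈ K → tg Z j ∈ K → tg (tg Z i) j ∈ K :=
    fun Z hZ U hU => quad hK hR hC _ Z hZ U hU le_rfl
  have main : ∀ n : ℕ, ∀ u ∈ K, ∀ v ∈ K, (symmDiff u v).card = n → ∀ w ∈ K, maj u v w ∈ K := by
    intro n
    induction n with
    | zero =>
      intro u hu v hv hc w hw
      rw [card_eq_zero] at hc
      have : u = v := symmDiff_eq_bot.mp hc
      rw [← this]
      have h1 : maj u u w = u := by
        ext t
        rw [mem_maj]
        tauto
      rw [h1]
      exact hu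
    | succ n ih =>
      intro u hu v hv hc w hw
      have hne : u ≠ v := by
        rintro rfl
        rw [symmDiff_self] at hc
        simp at hc
      obtain ⟨e, he, heK⟩ := hK u hu v hv hne
      have h1 := sd_erase_l he
      have hm := ih (tg u e) heK v hv (by rw [h1, card_erase_of_mem he]; omega) w hw
      by_cases hew : e ∈ w ↔ e ∈ v
      · rw [maj_eq1 he hew]
        exact hm
      · rw [maj_eq2 he hew]
        apply transport hK hQ hw hm e _ (tg u e) heK rfl
        · rw [tg_tg]; exact hu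
        · exact maj_e he hew
        · exact maj_t he hew
  intro A hA B hB C hC'
  exact main _ A hA B hB rfl C hC'

end Pool.Agent.H39.Seed
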