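import Pool.Agent.H39.Seed.Cub

set_option autoImplicit false

namespace Pool.Agent.H39.Seed

open Finset

/-- The graph is the `i`-graph of a finite well-covered graph. -/
def HasSeed {V : Type} (A : SimpleGraph V) : Prop :=
  ∃ (W : Type) (_ : Fintype W) (_ : DecidableEq W) (H : SimpleGraph W),
    WellCovered H ∧ Nonempty (iGraph H ≃g A)

variable {ι : Type} [Fintype ι] [DecidableEq ι]

theorem hasSeed_of_median {K : Set (Finset ι)} (hne : K.Nonempty) (hK : MedianClosed K) :
    HasSeed (famGraph K) := by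
  classical
  refine ⟨Lit K, Fintype.ofFinite _, fun a b => Subtype.instDecidableEq a b, seed K,
    seed_wc hK hne, ⟨(iso hK hne).symm⟩⟩

theorem sd_tg (A : Finset ι) (i : ι) : (symmDiff A (tg A i)).card = 1 := by
  unfold tg
  rw [symmDiff_symmDiff_cancel_left, card_singleton]

theorem sd_two (A : Finset ι) {i j : ι} (hij : i ≠ j) : (symmDiff (tg A i) (tg A j)).card = 2 := by
  have h1 : symmDiff (tg A i) (tg A j) = {i, j} := by
    ext t
    rw [mem_insert, mem_singleton, mem_symmDiff, mem_tg, mem_tg]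
    by_cases h1 : t = i
    · rw [h1]
      tauto
    · by_cases h2 : t = j
      · rw [h2]
        tauto
      · tauto
  rw [h1, card_pair hij]

theorem tg_tg_ne (A : Finset ι) {i j : ι} (hij : i ≠ j) : tg (tg A i) j ≠ A := by
  intro h
  have h1 : i ∈ tg (tg A i) j ↔ i ∉ A := by rw [mem_tg_ne hij, mem_tg_self]
  rw [h] at h1
  tauto

theorem cc_of_seed {K : Set (Finset ι)} (h : HasSeed (famGraph K)) : CC K := by
  obtain ⟨W, hf, hd, H, hwc, ⟨e⟩⟩ := h
  intro A hA i j k hij hik hjk h1 h2 h3 h4 h5 h6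
  have adj : ∀ a b : K, (symmDiff a.1 b.1).card = 1 →
      (iGraph H).Adj (e.symm a) (e.symm b) := by
    intro a b hab
    exact e.symm.map_adj_iff.mpr hab
  have nadj : ∀ a b : K, (symmDiff a.1 b.1).card = 2 →
      e.symm a ≠ e.symm b ∧ ¬ (iGraph H).Adj (e.symm a) (e.symm b) := by
    intro a b hab
    constructor
    · intro hh
      have := e.symm.injective hh
      rw [this, symmDiff_self] at hab
      simp at hab
    · intro hh
      have h7 : (famGraph K).Adj a b := e.symm.map_adj_iff.mp hh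
      have h8 : (symmDiff a.1 b.1).card = 1 := h7
      omega
  have ne' : ∀ a b : K, a.1 ≠ b.1 → e.symm a ≠ e.symm b := by
    intro a b hab hh
    exact hab (congrArg Subtype.val (e.symm.injective hh))
  obtain ⟨Y, y1, y2, y3⟩ := completion hwc (X := e.symm ⟨A, hA⟩) (X0 := e.symm ⟨_, h1⟩)
    (X1 := e.symm ⟨_, h2⟩) (X2 := e.symm ⟨_, h3⟩) (Y01 := e.symm ⟨_, h4⟩)
    (Y02 := e.symm ⟨_, h5⟩) (Y12 := e.symm ⟨_, h6⟩)
    (adj _ _ (sd_tg A i)) (adj _ _ (sd_tg A j)) (adj _ _ (sd_tg A k))
    (nadj _ _ (sd_two A hij)) (nadj _ _ (sd_two A hik)) (nadj _ _ (sd_two A hjk))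
    ⟨adj _ _ (sd_tg _ j), adj _ _ (by
      change (symmDiff (tg A j) (tg (tg A i) j)).card = 1
      rw [tg_comm]; exact sd_tg _ i), ne' _ _ (tg_tg_ne A hij)⟩
    ⟨adj _ _ (sd_tg _ k), adj _ _ (by
      change (symmDiff (tg A k) (tg (tg A i) k)).card = 1
      rw [tg_comm]; exact sd_tg _ i), ne' _ _ (tg_tg_ne A hik)⟩
    ⟨adj _ _ (sd_tg _ k), adj _ _ (by
      change (symmDiff (tg A k) (tg (tg A j) k)).card = 1
      rw [tg_comm]; exact sd_tg _ j), ne' _ _ (tg_tg_ne A hjk)⟩
  obtain ⟨B, rfl⟩ : ∃ B, Y = e.symm B := ⟨e Y, (e.symm_apply_apply Y).symm⟩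
  have z1 : (symmDiff (tg (tg A i) j) B.1).card = 1 := e.symm.map_adj_iff.mp y1
  have z2 : (symmDiff (tg (tg A i) k) B.1).card = 1 := e.symm.map_adj_iff.mp y2
  have z3 : (symmDiff (tg (tg A j) k) B.1).card = 1 := e.symm.map_adj_iff.mp y3
  obtain ⟨p, hp⟩ := card_eq_one.mp z1
  obtain ⟨q, hq⟩ := card_eq_one.mp z2
  obtain ⟨r, hr⟩ := card_eq_one.mp z3
  have hk : k ∈ symmDiff A B.1 := by
    by_contra hcon
    have e1 : k ∈ symmDiff (tg (tg A i) k) B.1 := by
      rw [sd_l', sd_l hik.symm]
      exact hcon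
    have e2 : k ∈ symmDiff (tg (tg A j) k) B.1 := by
      rw [sd_l', sd_l hjk.symm]
      exact hcon
    rw [hq, mem_singleton] at e1
    rw [hr, mem_singleton] at e2
    have e3 : i ∉ symmDiff A B.1 := by
      intro h7
      have h8 : i ∈ symmDiff (tg (tg A j) k) B.1 := by
        rw [sd_l hik, sd_l hij]
        exact h7
      rw [hr, mem_singleton] at h8
      exact hik (h8.trans e2.symm)
    have e4 : i ∈ symmDiff (tg (tg A i) k) B.1 := by
      rw [sd_l hik, sd_l']
      exact e3
    rw [hq, mem_singleton] at e4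
    exact hik (e4.trans e1.symm)
  have hkp : k ∈ symmDiff (tg (tg A i) j) B.1 := by
    rw [sd_l hjk.symm, sd_l hik.symm]
    exact hk
  rw [hp, mem_singleton] at hkp
  have hB : B.1 = tg (tg (tg A i) j) k := by
    have h7 : B.1 = symmDiff (tg (tg A i) j) (symmDiff (tg (tg A i) j) B.1) := by
      rw [symmDiff_symmDiff_cancel_left]
    rw [h7, hp, ← hkp]
    rfl
  rw [← hB]
  exact B.2

/-- The bottoms of the cubes with direction set `Y` which are contained in the family. -/
def cubes (K : Set (Finset ι)) (Y : Finset ι) : Set (Finset ι) :=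
  {A | Disjoint A Y ∧ ∀ T ⊆ Y, A ∪ T ∈ K}

theorem cubes_empty (K : Set (Finset ι)) : cubes K ∅ = K := by
  ext A
  constructor
  · rintro ⟨-, h⟩
    have := h ∅ (Subset.refl _)
    rwa [union_empty] at this
  · intro h
    refine ⟨disjoint_empty_right A, ?_⟩
    intro T hT
    rw [subset_empty.mp hT, union_empty]
    exact h

theorem cubes_single (K : Set (Finset ι)) (i : ι) : cubes K {i} = red K i := by
  ext A
  constructor
  · rintro ⟨h0, h⟩
    refine ⟨disjoint_singleton_right.mp h0, ?_, ?_⟩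
    · have := h ∅ (empty_subset _)
      rwa [union_empty] at this
    · have := h {i} (Subset.refl _)
      rwa [union_comm, ← insert_eq] at this
  · rintro ⟨h0, h1, h2⟩
    refine ⟨disjoint_singleton_right.mpr h0, ?_⟩
    intro T hT
    rcases subset_singleton_iff.mp hT with h | h
    · rw [h, union_empty]; exact h1
    · rw [h, union_comm, ← insert_eq]; exact h2

/-- Subsets of members are members. -/
def DownClosed (K : Set (Finset ι)) : Prop := ∀ A ∈ K, ∀ B ⊆ A, B ∈ K

theorem isometric_of_down {K : Set (Finset ι)} (hK : DownClosed K) : Isometric K := by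
  intro A hA B hB hAB
  by_cases h : ∃ i ∈ A, i ∉ B
  · obtain ⟨i, hi, hiB⟩ := h
    refine ⟨i, ?_, ?_⟩
    · rw [mem_symmDiff]
      exact Or.inl ⟨hi, hiB⟩
    · apply hK A hA
      intro t ht
      rw [mem_tg] at ht
      rcases ht with h1 | h1
      · exact h1.1
      · rw [h1.1]; exact hi
  · push Not at h
    have h1 : ∃ i ∈ B, i ∉ A := by
      by_contra hcon
      push Not at hcon
      exact hAB (Subset.antisymm h hcon)
    obtain ⟨i, hi, hiA⟩ := h1
    refine ⟨i, ?_, ?_⟩
    · rw [mem_symmDiff]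
      exact Or.inr ⟨hi, hiA⟩
    · apply hK B hB
      intro t ht
      rw [mem_tg] at ht
      rcases ht with h1 | h1
      · exact h t h1.1
      · rw [h1.1]; exact hi

theorem red_down {K : Set (Finset ι)} (hK : DownClosed K) (i : ι) : DownClosed (red K i) := by
  rintro A ⟨h0, h1, h2⟩ B hB
  exact ⟨fun h => h0 (hB h), hK A h1 B hB, hK _ h2 _ (insert_subset_insert i hB)⟩

/-- A set is a face if all its pairs (and all its elements) are faces. -/
def Flag (K : Set (Finset ι)) : Prop := ∀ A : Finset ι, (∀ a ∈ A, ∀ b ∈ A, {a, b} ∈ K) → A ∈ K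

theorem flag_iff {K : Set (Finset ι)} (hne : K.Nonempty) (hK : DownClosed K) :
    MedianClosed K ↔ Flag K := by
  constructor
  · intro hM A hA
    obtain ⟨B, hB, hB2⟩ := helly hM hne _ (A.map ⟨fun a => (a, true), fun a b h =>
      congrArg Prod.fst h⟩) rfl (by
        intro l hl m hm
        rw [mem_map] at hl hm
        obtain ⟨a, ha, rfl⟩ := hl
        obtain ⟨b, hb, rfl⟩ := hm
        refine ⟨{a, b}, hA a ha b hb, ?_, ?_⟩
        · unfold sat
          simp
        · unfold sat
          simp)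
    apply hK B hB
    intro a ha
    have h1 := hB2 (a, true) (mem_map.mpr ⟨a, ha, rfl⟩)
    unfold sat at h1
    exact h1.mpr rfl
  · intro hF A hA B hB C hC
    apply hF
    intro a ha b hb
    rw [mem_maj] at ha hb
    have key : ({a, b} : Finset ι) ⊆ A ∨ ({a, b} : Finset ι) ⊆ B ∨ ({a, b} : Finset ι) ⊆ C := by
      simp only [insert_subset_iff, singleton_subset_iff]
      tauto
    rcases key with h | h | h
    · exact hK A hA _ h
    · exact hK B hB _ h
    · exact hK C hC _ h

end Pool.Agent.H39.Seed
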