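import Pool.Agent.H39.Seed.Flg

set_option autoImplicit false

namespace Pool.Agent.H39.Seed.Maj

open Finset Pool.Agent.H39.Seed

variable {ι α : Type} [Fintype ι] [DecidableEq ι] [Fintype α] [DecidableEq α]

/-- The Hamming graph on a set of words: two words are adjacent if they differ in exactly one
position. -/
def hamGraph (K : Set (ι → α)) : SimpleGraph K where
  Adj f g := ∃ i, f.1 i ≠ g.1 i ∧ ∀ j, j ≠ i → f.1 j = g.1 j
  symm := ⟨by
    rintro f g ⟨i, h1, h2⟩
    exact ⟨i, h1.symm, fun j hj => (h2 j hj).symm⟩⟩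
  loopless := ⟨by
    rintro f ⟨i, h1, -⟩
    exact h1 rfl⟩

/-- `m i` is, for every position `i`, a majority operation. -/
def IsMajority (m : ι → α → α → α → α) : Prop :=
  ∀ i x y, m i x x y = x ∧ m i x y x = x ∧ m i y x x = x

/-- The set of words is closed under the operation. -/
def ClosedUnder (m : ι → α → α → α → α) (K : Set (ι → α)) : Prop :=
  ∀ f ∈ K, ∀ g ∈ K, ∀ h ∈ K, (fun i => m i (f i) (g i) (h i)) ∈ K

/-- the Helly property (Baker and Pixley) -/
theorem helly {m : ι → α → α → α → α} (hm : IsMajority m) {K : Set (ι → α)}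
    (hK : ClosedUnder m K) (hne : K.Nonempty) (n : ℕ) :
    ∀ T : Finset (ι × α), T.card = n →
      (∀ l ∈ T, ∀ k ∈ T, ∃ f ∈ K, f l.1 = l.2 ∧ f k.1 = k.2) → ∃ f ∈ K, ∀ l ∈ T, f l.1 = l.2 := by
  induction n with
  | zero =>
    intro T hT _
    obtain ⟨A, hA⟩ := hne
    rw [card_eq_zero] at hT
    refine ⟨A, hA, ?_⟩
    rw [hT]
    intro l hl
    exact absurd hl (notMem_empty l)
  | succ n ih =>
    intro T hT hpair
    by_cases h3 : 2 < T.card
    · obtain ⟨a, b, c, ha, hb, hc, hab, hac, hbc⟩ := two_lt_card_iff.mp h3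
      have her : ∀ x ∈ T, ∃ A ∈ K, ∀ l ∈ T, l ≠ x → A l.1 = l.2 := by
        intro x hx
        obtain ⟨A, hA, hA2⟩ := ih (T.erase x) (by rw [card_erase_of_mem hx]; omega)
          (fun l hl m hm => hpair l (mem_of_mem_erase hl) m (mem_of_mem_erase hm))
        exact ⟨A, hA, fun l hl hne => hA2 l (mem_erase.mpr ⟨hne, hl⟩)⟩
      obtain ⟨A, hA, hA2⟩ := her a ha
      obtain ⟨B, hB, hB2⟩ := her b hb
      obtain ⟨C, hC, hC2⟩ := her c hc
      refine ⟨_, hK A hA B hB C hC, ?_⟩
      intro l hl
      change m l.1 (A l.1) (B l.1) (C l.1) = l.2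
      by_cases hla : l = a
      · rw [hB2 l hl (by rw [hla]; exact hab), hC2 l hl (by rw [hla]; exact hac)]
        exact (hm _ _ _).2.2
      · by_cases hlb : l = b
        · rw [hC2 l hl (by rw [hlb]; exact hbc), hA2 l hl hla]
          exact (hm _ _ _).2.1
        · rw [hA2 l hl hla, hB2 l hl hlb]
          exact (hm _ _ _).1
    · -- at most two literals
      have h1 : T.Nonempty := by
        rw [← card_pos]
        omega
      obtain ⟨a, ha⟩ := h1
      by_cases hex : ∃ b ∈ T, b ≠ a
      · obtain ⟨b, hb, hba⟩ := hex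
        obtain ⟨A, hA, hA1, hA2⟩ := hpair a ha b hb
        refine ⟨A, hA, ?_⟩
        intro l hl
        by_cases hla : l = a
        · rw [hla]; exact hA1
        · by_cases hlb : l = b
          · rw [hlb]; exact hA2
          · exact absurd (two_lt_card_iff.mpr ⟨a, b, l, ha, hb, hl, hba.symm, fun h => hla h.symm,
              fun h => hlb h.symm⟩) h3
      · push Not at hex
        obtain ⟨A, hA, hA1, -⟩ := hpair a ha a ha
        exact ⟨A, hA, fun l hl => by rw [hex l hl]; exact hA1⟩

/-- the pairs (position, letter) which occur -/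
abbrev Lit (K : Set (ι → α)) : Type := {l : ι × α // ∃ f ∈ K, f l.1 = l.2}

/-- the seed graph: two pairs are adjacent if no word of the set contains both -/
def seed (K : Set (ι → α)) : SimpleGraph (Lit K) where
  Adj l m := ¬ ∃ f ∈ K, f l.1.1 = l.1.2 ∧ f m.1.1 = m.1.2
  symm := ⟨by
    rintro l m h ⟨A, hA, h1, h2⟩
    exact h ⟨A, hA, h2, h1⟩⟩
  loopless := ⟨by
    rintro l h
    obtain ⟨A, hA, h1⟩ := l.2
    exact h ⟨A, hA, h1, h1⟩⟩

/-- the pair of `f` at the position `i` -/
def at' (K : Set (ι → α)) (f : K) (i : ι) : Lit K := ⟨(i, f.1 i), f.1, f.2, rfl⟩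

/-- the pairs contained in `f` -/
noncomputable def lits (K : Set (ι → α)) (f : K) : Finset (Lit K) :=
  (univ : Finset ι).map ⟨at' K f, by
    intro i j h
    exact congrArg (fun l : Lit K => l.1.1) h⟩

theorem mem_lits {K : Set (ι → α)} {f : K} {l : Lit K} : l ∈ lits K f ↔ f.1 l.1.1 = l.1.2 := by
  unfold lits
  rw [mem_map]
  constructor
  · rintro ⟨i, -, rfl⟩
    rfl
  · intro h
    exact ⟨l.1.1, mem_univ _, Subtype.ext (Prod.ext rfl h)⟩

theorem at_mem {K : Set (ι → α)} (f g : K) (i : ι) : at' K f i ∈ lits K g ↔ g.1 i = f.1 i :=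
  mem_lits

theorem lits_mis {K : Set (ι → α)} (A : K) : IsMIS (seed K) (lits K A) := by
  refine ⟨?_, ?_⟩
  · intro l hl m hm h
    exact h ⟨A.1, A.2, mem_lits.mp hl, mem_lits.mp hm⟩
  · intro l hl
    rw [mem_lits] at hl
    refine ⟨at' K A l.1.1, (at_mem A A _).mpr rfl, ?_⟩
    rintro ⟨B, hB, h1, h2⟩
    apply hl
    rw [← h2]
    exact h1.symm

theorem mis_lits {m : ι → α → α → α → α} (hm : IsMajority m) {K : Set (ι → α)}
    (hK : ClosedUnder m K) (hne : K.Nonempty)
    {T : Finset (Lit K)} (hT : IsMIS (seed K) T) : ∃ A : K, T = lits K A := by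
  classical
  obtain ⟨A, hA, hA2⟩ := helly hm hK hne _ (T.map ⟨Subtype.val, Subtype.val_injective⟩) rfl (by
    intro l hl m hm
    rw [mem_map] at hl hm
    obtain ⟨l', hl', rfl⟩ := hl
    obtain ⟨m', hm', rfl⟩ := hm
    by_contra hcon
    exact hT.1 l' hl' m' hm' hcon)
  refine ⟨⟨A, hA⟩, ?_⟩
  have hsub : T ⊆ lits K ⟨A, hA⟩ := by
    intro l hl
    rw [mem_lits]
    exact hA2 l.1 (mem_map.mpr ⟨l, hl, rfl⟩)
  apply Subset.antisymm hsub
  intro l hl
  by_contra hlT
  obtain ⟨m, hm, hml⟩ := hT.2 l hlT
  exact (lits_mis (⟨A, hA⟩ : K)).1 m (hsub hm) l hl hml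

theorem card_lits {K : Set (ι → α)} (A : K) : (lits K A).card = Fintype.card ι := by
  unfold lits
  rw [card_map, card_univ]

theorem seed_wc {m : ι → α → α → α → α} (hm : IsMajority m) {K : Set (ι → α)}
    (hK : ClosedUnder m K) (hne : K.Nonempty) : WellCovered (seed K) := by
  intro S T hS hT
  obtain ⟨A, rfl⟩ := mis_lits hm hK hne hS
  obtain ⟨B, rfl⟩ := mis_lits hm hK hne hT
  rw [card_lits, card_lits]

theorem lits_iset {m : ι → α → α → α → α} (hm : IsMajority m) {K : Set (ι → α)}
    (hK : ClosedUnder m K) (A : K) : IsISet (seed K) (lits K A) := by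
  refine ⟨lits_mis A, fun T hT => ?_⟩
  obtain ⟨B, rfl⟩ := mis_lits hm hK ⟨A.1, A.2⟩ hT
  rw [card_lits, card_lits]

theorem lits_inj {K : Set (ι → α)} {A B : K} (h : lits K A = lits K B) : A = B := by
  apply Subtype.ext
  funext i
  have h1 : at' K A i ∈ lits K A := (at_mem A A i).mpr rfl
  rw [h, at_mem] at h1
  exact h1.symm

/-- The Hamming graph of `K` is the `i`-graph of `seed K`. -/
noncomputable def iso {m : ι → α → α → α → α} (hm : IsMajority m) {K : Set (ι → α)}
    (hK : ClosedUnder m K) (hne : K.Nonempty) : hamGraph K ≃g iGraph (seed K) where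
  toEquiv := Equiv.ofBijective (fun A => (⟨lits K A, lits_iset hm hK A⟩ :
      {S : Finset (Lit K) // IsISet (seed K) S})) (by
    constructor
    · intro A B h
      exact lits_inj (congrArg Subtype.val h)
    · rintro ⟨T, hT⟩
      obtain ⟨A, rfl⟩ := mis_lits hm hK hne hT.1
      exact ⟨A, rfl⟩)
  map_rel_iff' := by
    intro A B
    change (iGraph (seed K)).Adj ⟨lits K A, lits_iset hm hK A⟩ ⟨lits K B, lits_iset hm hK B⟩ ↔
      ∃ i, A.1 i ≠ B.1 i ∧ ∀ j, j ≠ i → A.1 j = B.1 j
    constructor
    · intro h
      obtain ⟨a, ha, b, hb, hab, he⟩ := of_adj h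
      change lits K B = insert b ((lits K A).erase a) at he
      change a ∈ lits K A at ha
      change b ∉ lits K A at hb
      have hne' : A ≠ B := by
        rintro rfl
        apply hb
        rw [he]
        exact mem_insert_self _ _
      have hall : ∀ j, j ≠ a.1.1 → A.1 j = B.1 j := by
        intro j hj
        have h2 : at' K A j ∈ lits K B := by
          rw [he, mem_insert, mem_erase]
          right
          refine ⟨?_, (at_mem A A j).mpr rfl⟩
          intro h3
          apply hj
          rw [← h3]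
          rfl
        exact ((at_mem A B j).mp h2).symm
      refine ⟨a.1.1, ?_, hall⟩
      intro h1
      apply hne'
      apply Subtype.ext
      funext j
      by_cases hj : j = a.1.1
      · rw [hj]; exact h1
      · exact hall j hj
    · rintro ⟨i, h1, h2⟩
      refine adj_of (a := at' K A i) (b := at' K B i) ((at_mem A A i).mpr rfl) ?_ ?_
      · change at' K B i ∉ lits K A
        rw [at_mem]
        exact h1
      · change lits K B = insert _ ((lits K A).erase _)
        ext l
        rw [mem_insert, mem_erase, mem_lits, mem_lits]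
        by_cases hl : l.1.1 = i
        · constructor
          · intro h3
            left
            apply Subtype.ext
            apply Prod.ext
            · exact hl
            · change l.1.2 = B.1 i
              rw [← h3, hl]
          · rintro (h3 | ⟨h3, h4⟩)
            · rw [h3]
              rfl
            · exfalso
              apply h3
              apply Subtype.ext
              apply Prod.ext
              · exact hl
              · change l.1.2 = A.1 i
                rw [← h4, hl]
        · have h0 := h2 l.1.1 hl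
          constructor
          · intro h3
            right
            refine ⟨?_, ?_⟩
            · intro h4
              apply hl
              rw [h4]
              rfl
            · rw [h0]; exact h3
          · rintro (h3 | ⟨-, h4⟩)
            · exfalso
              apply hl
              rw [h3]
              rfl
            · rw [← h0]; exact h4

theorem hasSeed {m : ι → α → α → α → α} (hm : IsMajority m) {K : Set (ι → α)}
    (hK : ClosedUnder m K) (hne : K.Nonempty) : HasSeed (hamGraph K) := by
  classical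
  exact ⟨Lit K, Fintype.ofFinite _, fun a b => Subtype.instDecidableEq a b, seed K,
    seed_wc hm hK hne, ⟨(iso hm hK hne).symm⟩⟩

end Pool.Agent.H39.Seed.Maj
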