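import Pool.Agent.H39.Seed.Base

set_option autoImplicit false

namespace Pool.Agent.H39.Seed

open Finset

variable {ι : Type} [Fintype ι] [DecidableEq ι]

/-- The graph of a family of sets: two sets are adjacent if they differ in exactly one element. -/
def famGraph (K : Set (Finset ι)) : SimpleGraph K where
  Adj A B := (symmDiff A.1 B.1).card = 1
  symm := ⟨by
    intro A B h
    rw [symmDiff_comm]
    exact h⟩
  loopless := ⟨by
    intro A h
    rw [symmDiff_self] at h
    simp at h⟩

/-- The majority of three sets. -/
def maj (A B C : Finset ι) : Finset ι := (A ∩ B) ∪ (B ∩ C) ∪ (C ∩ A)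

/-- The family is closed under majorities. -/
def MedianClosed (K : Set (Finset ι)) : Prop := ∀ A ∈ K, ∀ B ∈ K, ∀ C ∈ K, maj A B C ∈ K

/-- The set `A` satisfies the literal `l`. -/
def sat (A : Finset ι) (l : ι × Bool) : Prop := l.1 ∈ A ↔ l.2 = true

theorem maj_sat {A B C : Finset ι} {l : ι × Bool}
    (h : (sat A l ∧ sat B l) ∨ (sat B l ∧ sat C l) ∨ (sat C l ∧ sat A l)) : sat (maj A B C) l := by
  unfold sat maj at *
  simp only [mem_union, mem_inter]
  tauto

/-- the Helly property -/
theorem helly {K : Set (Finset ι)} (hK : MedianClosed K) (hne : K.Nonempty) (n : ℕ) :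
    ∀ T : Finset (ι × Bool), T.card = n →
      (∀ l ∈ T, ∀ m ∈ T, ∃ A ∈ K, sat A l ∧ sat A m) → ∃ A ∈ K, ∀ l ∈ T, sat A l := by
  induction n with
  | zero =>
    intro T hT _
    obtain ⟨A, hA⟩ := hne
    rw [card_eq_zero] at hT
    refine ⟨A, hA, ?_⟩
    rw [hT]
    intro l hl
    exact absurd hl (notMem_empty l)
  | succ n ih =>
    intro T hT hpair
    by_cases h3 : 2 < T.card
    · obtain ⟨a, b, c, ha, hb, hc, hab, hac, hbc⟩ := two_lt_card_iff.mp h3
      have her : ∀ x ∈ T, ∃ A ∈ K, ∀ l ∈ T, l ≠ x → sat A l := by
        intro x hx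
        obtain ⟨A, hA, hA2⟩ := ih (T.erase x) (by rw [card_erase_of_mem hx]; omega)
          (fun l hl m hm => hpair l (mem_of_mem_erase hl) m (mem_of_mem_erase hm))
        exact ⟨A, hA, fun l hl hne => hA2 l (mem_erase.mpr ⟨hne, hl⟩)⟩
      obtain ⟨A, hA, hA2⟩ := her a ha
      obtain ⟨B, hB, hB2⟩ := her b hb
      obtain ⟨C, hC, hC2⟩ := her c hc
      refine ⟨maj A B C, hK A hA B hB C hC, ?_⟩
      intro l hl
      apply maj_sat
      by_cases hla : l = a
      · exact Or.inr (Or.inl ⟨hB2 l hl (by rw [hla]; exact hab), hC2 l hl (by rw [hla]; exact hac)⟩)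
      · by_cases hlb : l = b
        · exact Or.inr (Or.inr ⟨hC2 l hl (by rw [hlb]; exact hbc), hA2 l hl hla⟩)
        · exact Or.inl ⟨hA2 l hl hla, hB2 l hl hlb⟩
    · -- at most two literals
      have h1 : T.Nonempty := by
        rw [← card_pos]
        omega
      obtain ⟨a, ha⟩ := h1
      by_cases hex : ∃ b ∈ T, b ≠ a
      · obtain ⟨b, hb, hba⟩ := hex
        obtain ⟨A, hA, hA1, hA2⟩ := hpair a ha b hb
        refine ⟨A, hA, ?_⟩
        intro l hl
        by_cases hla : l = a
        · rw [hla]; exact hA1
        · by_cases hlb : l = b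
          · rw [hlb]; exact hA2
          · exact absurd (two_lt_card_iff.mpr ⟨a, b, l, ha, hb, hl, hba.symm, fun h => hla h.symm,
              fun h => hlb h.symm⟩) h3
      · push Not at hex
        obtain ⟨A, hA, hA1, -⟩ := hpair a ha a ha
        exact ⟨A, hA, fun l hl => by rw [hex l hl]; exact hA1⟩

/-- the literals which occur -/
abbrev Lit (K : Set (Finset ι)) : Type := {l : ι × Bool // ∃ A ∈ K, sat A l}

/-- the seed graph: two literals are adjacent if no member of the family satisfies both -/
def seed (K : Set (Finset ι)) : SimpleGraph (Lit K) where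
  Adj l m := ¬ ∃ A ∈ K, sat A l.1 ∧ sat A m.1
  symm := ⟨by
    rintro l m h ⟨A, hA, h1, h2⟩
    exact h ⟨A, hA, h2, h1⟩⟩
  loopless := ⟨by
    rintro l h
    obtain ⟨A, hA, h1⟩ := l.2
    exact h ⟨A, hA, h1, h1⟩⟩

theorem sat_self (A : Finset ι) (i : ι) : sat A (i, decide (i ∈ A)) := by
  unfold sat
  simp

/-- the literals satisfied by `A` -/
noncomputable def lits (K : Set (Finset ι)) (A : K) : Finset (Lit K) :=
  (univ : Finset ι).map ⟨fun i => ⟨(i, decide (i ∈ A.1)), A.1, A.2, sat_self A.1 i⟩, by
    intro i j h
    exact congrArg (fun l : Lit K => l.1.1) h⟩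

theorem mem_lits {K : Set (Finset ι)} {A : K} {l : Lit K} : l ∈ lits K A ↔ sat A.1 l.1 := by
  unfold lits
  rw [mem_map]
  constructor
  · rintro ⟨i, -, rfl⟩
    exact sat_self A.1 i
  · intro h
    refine ⟨l.1.1, mem_univ _, ?_⟩
    apply Subtype.ext
    apply Prod.ext
    · rfl
    · unfold sat at h
      change decide (l.1.1 ∈ A.1) = l.1.2
      by_cases h1 : l.1.1 ∈ A.1
      · rw [decide_eq_true h1]
        exact (h.mp h1).symm
      · rw [decide_eq_false h1]
        cases h2 : l.1.2
        · rfl
        · exact absurd (h.mpr h2) h1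

theorem lits_mis {K : Set (Finset ι)} (A : K) : IsMIS (seed K) (lits K A) := by
  refine ⟨?_, ?_⟩
  · intro l hl m hm h
    exact h ⟨A.1, A.2, mem_lits.mp hl, mem_lits.mp hm⟩
  · intro l hl
    rw [mem_lits] at hl
    refine ⟨⟨(l.1.1, decide (l.1.1 ∈ A.1)), A.1, A.2, sat_self A.1 _⟩, ?_, ?_⟩
    · rw [mem_lits]
      exact sat_self A.1 _
    · rintro ⟨B, hB, h1, h2⟩
      apply hl
      unfold sat at *
      simp only [decide_eq_true_eq] at h1
      rw [← h1]
      exact h2

theorem mis_lits {K : Set (Finset ι)} (hK : MedianClosed K) (hne : K.Nonempty)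
    {T : Finset (Lit K)} (hT : IsMIS (seed K) T) : ∃ A : K, T = lits K A := by
  classical
  obtain ⟨A, hA, hA2⟩ := helly hK hne _ (T.map ⟨Subtype.val, Subtype.val_injective⟩) rfl (by
    intro l hl m hm
    rw [mem_map] at hl hm
    obtain ⟨l', hl', rfl⟩ := hl
    obtain ⟨m', hm', rfl⟩ := hm
    by_contra hcon
    exact hT.1 l' hl' m' hm' hcon)
  refine ⟨⟨A, hA⟩, ?_⟩
  have hsub : T ⊆ lits K ⟨A, hA⟩ := by
    intro l hl
    rw [mem_lits]
    exact hA2 l.1 (mem_map.mpr ⟨l, hl, rfl⟩)
  apply Subset.antisymm hsub
  intro l hl
  by_contra hlT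
  obtain ⟨m, hm, hml⟩ := hT.2 l hlT
  exact (lits_mis (⟨A, hA⟩ : K)).1 m (hsub hm) l hl hml

theorem card_lits {K : Set (Finset ι)} (A : K) : (lits K A).card = Fintype.card ι := by
  unfold lits
  rw [card_map, card_univ]

theorem seed_wc {K : Set (Finset ι)} (hK : MedianClosed K) (hne : K.Nonempty) :
    WellCovered (seed K) := by
  intro S T hS hT
  obtain ⟨A, rfl⟩ := mis_lits hK hne hS
  obtain ⟨B, rfl⟩ := mis_lits hK hne hT
  rw [card_lits, card_lits]

theorem lits_iset {K : Set (Finset ι)} (hK : MedianClosed K) (A : K) :
    IsISet (seed K) (lits K A) := by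
  refine ⟨lits_mis A, fun T hT => ?_⟩
  obtain ⟨B, rfl⟩ := mis_lits hK ⟨A.1, A.2⟩ hT
  rw [card_lits, card_lits]

theorem lits_inj {K : Set (Finset ι)} {A B : K} (h : lits K A = lits K B) : A = B := by
  apply Subtype.ext
  ext i
  have h1 : (⟨(i, decide (i ∈ A.1)), A.1, A.2, sat_self A.1 i⟩ : Lit K) ∈ lits K A := by
    rw [mem_lits]; exact sat_self A.1 i
  rw [h, mem_lits] at h1
  unfold sat at h1
  simp only [decide_eq_true_eq] at h1
  exact h1.symm

/-- The graph of a family which is closed under majorities is the `i`-graph of `seed K`. -/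
noncomputable def iso {K : Set (Finset ι)} (hK : MedianClosed K) (hne : K.Nonempty) :
    famGraph K ≃g iGraph (seed K) where
  toEquiv := Equiv.ofBijective (fun A => (⟨lits K A, lits_iset hK A⟩ :
      {S : Finset (Lit K) // IsISet (seed K) S})) (by
    constructor
    · intro A B h
      exact lits_inj (congrArg Subtype.val h)
    · rintro ⟨T, hT⟩
      obtain ⟨A, rfl⟩ := mis_lits hK hne hT.1
      exact ⟨A, rfl⟩)
  map_rel_iff' := by
    intro A B
    change (iGraph (seed K)).Adj ⟨lits K A, lits_iset hK A⟩ ⟨lits K B, lits_iset hK B⟩ ↔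
      (symmDiff A.1 B.1).card = 1
    constructor
    · intro h
      obtain ⟨a, ha, b, hb, hab, he⟩ := of_adj h
      change lits K B = insert b ((lits K A).erase a) at he
      change a ∈ lits K A at ha
      change b ∉ lits K A at hb
      rw [card_eq_one]
      refine ⟨a.1.1, ?_⟩
      ext i
      rw [mem_symmDiff, mem_singleton]
      -- the literal of `A` at `i`
      have hA : (⟨(i, decide (i ∈ A.1)), A.1, A.2, sat_self A.1 i⟩ : Lit K) ∈ lits K A := by
        rw [mem_lits]; exact sat_self A.1 i
      constructor
      · intro h1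
        by_contra hia
        have h2 : (⟨(i, decide (i ∈ A.1)), A.1, A.2, sat_self A.1 i⟩ : Lit K) ∈ lits K B := by
          rw [he, mem_insert, mem_erase]
          right
          refine ⟨?_, hA⟩
          intro h3
          apply hia
          rw [← h3]
        rw [mem_lits] at h2
        unfold sat at h2
        simp only [decide_eq_true_eq] at h2
        tauto
      · rintro rfl
        have h1 : a ∉ lits K B := by
          rw [he, mem_insert, mem_erase]
          rintro (h2 | h2)
          · rw [← h2] at hb
            exact hb ha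
          · exact h2.1 rfl
        rw [mem_lits] at ha h1
        unfold sat at ha h1
        tauto
    · intro h
      obtain ⟨i, hi⟩ := card_eq_one.mp h
      have hsd : ∀ j, (j ∈ A.1 ↔ j ∈ B.1) ↔ j ≠ i := by
        intro j
        have h1 : j ∈ symmDiff A.1 B.1 ↔ j = i := by rw [hi, mem_singleton]
        rw [mem_symmDiff] at h1
        tauto
      have hA : (⟨(i, decide (i ∈ A.1)), A.1, A.2, sat_self A.1 i⟩ : Lit K) ∈ lits K A := by
        rw [mem_lits]; exact sat_self A.1 i
      refine adj_of (a := (⟨(i, decide (i ∈ A.1)), A.1, A.2, sat_self A.1 i⟩ : Lit K))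
        (b := (⟨(i, decide (i ∈ B.1)), B.1, B.2, sat_self B.1 i⟩ : Lit K)) hA ?_ ?_
      · change _ ∉ lits K A
        rw [mem_lits]
        intro h1
        unfold sat at h1
        simp only [decide_eq_true_eq] at h1
        exact (hsd i).mp h1 rfl
      · change lits K B = insert _ ((lits K A).erase _)
        ext l
        rw [mem_insert, mem_erase, mem_lits, mem_lits]
        by_cases hl : l.1.1 = i
        · have h0 := (hsd i).not.mpr (by simp)
          constructor
          · intro h1
            left
            apply Subtype.ext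
            apply Prod.ext
            · exact hl
            · unfold sat at h1
              rw [hl] at h1
              change l.1.2 = decide (i ∈ B.1)
              by_cases h2 : i ∈ B.1
              · rw [decide_eq_true h2]; exact h1.mp h2
              · rw [decide_eq_false h2]
                cases h3 : l.1.2
                · rfl
                · exact absurd (h1.mpr h3) h2
          · rintro (h1 | ⟨h1, h2⟩)
            · rw [h1]
              exact sat_self B.1 i
            · exfalso
              apply h1
              apply Subtype.ext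
              apply Prod.ext
              · exact hl
              · unfold sat at h2
                rw [hl] at h2
                change l.1.2 = decide (i ∈ A.1)
                by_cases h4 : i ∈ A.1
                · rw [decide_eq_true h4]; exact h2.mp h4
                · rw [decide_eq_false h4]
                  cases h3 : l.1.2
                  · rfl
                  · exact absurd (h2.mpr h3) h4
        · have h0 := (hsd l.1.1).mpr hl
          constructor
          · intro h1
            right
            refine ⟨?_, ?_⟩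
            · intro h2
              apply hl
              rw [h2]
            · unfold sat at *
              rw [h0]
              exact h1
          · rintro (h1 | ⟨-, h2⟩)
            · exfalso
              apply hl
              rw [h1]
            · unfold sat at *
              rw [← h0]
              exact h2

end Pool.Agent.H39.Seed
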